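import Pool.Agent.Lib.MP_9569f1_co.Cycles
import Pool.Agent.Lib.MP_9569f1_co.Even.Main

set_option autoImplicit false

namespace Pool.Agent.Results.MP_9569f1_co.MinDeficiencyTwo

open Pool.Agent.Lib.MP_9569f1_co Module

/-- The set of all positive deficiencies of complete partial packings of the projective space
`PG(3,K)`, whose lines are the two-dimensional subspaces of `Fin 4 → K`. Its least element
is `m(q)`, where `q` is the number of elements of `K`. -/
def posDeficiencies (K : Type*) [Field K] [Fintype K] : Set ℕ :=
  {d : ℕ | 0 < d ∧ ∃ P : Set (Set (Submodule K (Fin 4 → K))),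
    IsCompletePartialPacking K (Fin 4 → K) P d}

lemma of_model (K : Type*) [Field K] [Fintype K] {W : Type*} [AddCommGroup W] [Module K W]
    (hW : finrank K W = 4) (h : ∃ P, IsCompletePartialPacking K W P 2)
    (h0 : ∃ P0 : Set (Set (Submodule K W)), IsPack P0) : IsLeast (posDeficiencies K) 2 := by
  have hfd : FiniteDimensional K W := Module.finite_of_finrank_pos (by rw [hW]; norm_num)
  obtain ⟨P, hP⟩ := h
  obtain ⟨P0, hP0⟩ := h0
  have hfr : finrank K W = finrank K (Fin 4 → K) := by
    rw [hW]; simp
  let e := LinearEquiv.ofFinrankEq W (Fin 4 → K) hfr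
  constructor
  · exact ⟨by norm_num, _, hP.image e⟩
  · rintro d ⟨hd, Q, hQ⟩
    by_contra hlt
    have h1 : d = 1 := by omega
    subst h1
    exact no_deficiency_one hW hP0 _ (hQ.image e.symm)

/-- **Main theorem.** For every finite field `K` with `q ≥ 3` elements, the minimum positive
deficiency `m(q)` of a complete partial packing of `PG(3,q)` is equal to `2`. -/
theorem result (K : Type*) [Field K] [Fintype K] (hK : 3 ≤ Fintype.card K) :
    IsLeast (posDeficiencies K) 2 := by
  by_cases hodd : Odd (Fintype.card K)
  · obtain ⟨E, hP, hP0⟩ := exists_model hodd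
    exact of_model K finrank_V hP hP0
  · have h2 : (2 : K) = 0 := by
      by_contra h
      apply hodd
      have hchar : ringChar K ≠ 2 := by
        intro hc
        apply h
        have : ((2 : ℕ) : K) = 0 := by rw [← hc]; exact ringChar.Nat.cast_ringChar
        exact_mod_cast this
      exact Nat.odd_iff.mpr (FiniteField.odd_card_of_char_ne_two hchar)
    obtain ⟨ε, k, hε, hk, hgood⟩ := Even.exists_params h2 hK
    have Hab : Fact (∀ r : K, r ^ 2 ≠ ε + 1 * r) := ⟨hε⟩
    obtain ⟨hP, hP0⟩ := Even.deficiency_two_even h2 hk hgood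
    exact of_model K Even.finrank_V hP hP0

end Pool.Agent.Results.MP_9569f1_co.MinDeficiencyTwo
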